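import Pool.Agent.H71.CQ.Basic

/-!
# UN2: free labels are unique for similar structures
-/

set_option autoImplicit false

open Set

namespace Pool.Agent.H49.CQ

open Pool.Agent.H71.CQ

/-- (UN2) -/
theorem pf_UN2 (hSUM : T_SUM) (hSUW : T_SUW) : T_UN2 := by
  classical
  intro L N hN hF hU e e' he he' hS x y hx hy
  obtain ⟨hs, g0, hg0⟩ := hS
  let E : Bool → ℕ → ℕ → L := fun j => Bool.rec e' e j
  let g : ∀ j, {x // Wp N e x} ≃ {x // Wp N (E j) x} :=
    fun j => Bool.rec (motive := fun j => {x // Wp N e x} ≃ {x // Wp N (E j) x}) g0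
      (Equiv.refl _) j
  let cr : SQ N E → SQ N E → L := fun v w =>
    if v.1 = true then fr N (E v.1 v.2 v.2) (E w.1 w.2 w.2)
    else N.rev (fr N (E w.1 w.2 w.2) (E v.1 v.2 v.2))
  have hcol : ∀ v : SQ N E, (Srt e (E v.1 v.2 v.2)).Infinite := by
    rintro ⟨j, z, hz⟩
    cases j with
    | false => exact (hs _).2 (srt_inf hz)
    | true => exact srt_inf hz
  have hne : ∀ v w : SQ N E, fr N (E v.1 v.2 v.2) (E w.1 w.2 w.2) ∈
      Fr N (E v.1 v.2 v.2) (E w.1 w.2 w.2) := fun v w =>
    fr_mem (hF e he _ _ (hcol v) (hcol w))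
  have hSH : SH N e E g cr := by
    refine ⟨he, ?_, ?_, ?_, ?_, ?_⟩
    · intro j
      cases j with
      | false => exact he'
      | true => exact he
    · intro j q
      cases j with
      | false => exact hs q
      | true => exact Iff.rfl
    · intro j
      cases j with
      | false => exact hg0
      | true => exact fun _ _ => rfl
    · intro v w _
      by_cases h : v.1 = true
      · have e1 : cr v w = fr N (E v.1 v.2 v.2) (E w.1 w.2 w.2) := if_pos h
        rw [e1]
        exact hne v w
      · have e1 : cr v w = N.rev (fr N (E w.1 w.2 w.2) (E v.1 v.2 v.2)) := if_neg h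
        rw [e1]
        exact fr_rev (hne w v)
    · intro v w hvw
      by_cases h : v.1 = true
      · have hw : ¬ w.1 = true := fun h' => hvw (h.trans h'.symm)
        have e1 : cr v w = fr N (E v.1 v.2 v.2) (E w.1 w.2 w.2) := if_pos h
        have e2 : cr w v = N.rev (fr N (E v.1 v.2 v.2) (E w.1 w.2 w.2)) := if_neg hw
        rw [e1, e2]
      · have hw : w.1 = true := by
          rcases Bool.eq_false_or_eq_true w.1 with h' | h'
          · exact h'
          · exact absurd ((Bool.eq_false_of_not_eq_true h).trans h'.symm) hvw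
        have e1 : cr v w = N.rev (fr N (E w.1 w.2 w.2) (E v.1 v.2 v.2)) := if_neg h
        have e2 : cr w v = fr N (E w.1 w.2 w.2) (E v.1 v.2 v.2) := if_pos hw
        rw [e1, e2, rl_rev_rev (hne w v).1]
  have hM : Mem N (SE N e E g cr) := hSUM L N hN e Bool E g cr hSH
  have hW := (hSUW L N hN e Bool E g cr hSH).2.1
  -- the points are countably many
  have hinf : Infinite (SV N e E) := by
    refine Infinite.of_injective (fun z : ℕ => if h : Wp N e z then
      (Sum.inl ⟨z, h⟩ : SV N e E) else Sum.inr ⟨true, z, h⟩) ?_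
    intro z w hzw
    by_cases h1 : Wp N e z <;> by_cases h2 : Wp N e w
    · simp only [h1, h2, dif_pos] at hzw
      exact congrArg Subtype.val (Sum.inl.inj hzw)
    · simp only [h1, h2, dif_pos, dif_neg, not_false_eq_true, reduceCtorEq] at hzw
    · simp only [h1, h2, dif_pos, dif_neg, not_false_eq_true, reduceCtorEq] at hzw
    · simp only [h1, h2, dif_neg, not_false_eq_true, Sum.inr.injEq, Sigma.mk.injEq, heq_eq_eq,
        true_and, Subtype.mk.injEq] at hzw
      exact hzw
  obtain ⟨f⟩ : Nonempty (ℕ ≃ SV N e E) := by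
    haveI : Countable (SV N e E) := inferInstance
    obtain ⟨d⟩ := nonempty_denumerable (SV N e E)
    exact ⟨(Denumerable.eqv (SV N e E)).symm⟩
  have hI : IsIso (fun a b : ℕ => SE N e E g cr (f a) (f b)) (SE N e E g cr) f := isIso_comap f
  have hM' : Mem N (fun a b : ℕ => SE N e E g cr (f a) (f b)) := hI.symm.mem hM
  have hWa : ∀ v : SQ N E, ¬ Wp N (fun a b : ℕ => SE N e E g cr (f a) (f b))
      (f.symm (Sum.inr v)) := by
    intro v hv
    have h1 := (hI.wp (f.symm (Sum.inr v))).2 hv
    rw [f.apply_symm_apply] at h1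
    exact hW v h1
  have hfin := hU _ hM' _ _ (hWa ⟨true, x, hx⟩) (hWa ⟨false, y, hy⟩)
  have e1 : ∀ v : SQ N E, SE N e E g cr (f (f.symm (Sum.inr v))) (f (f.symm (Sum.inr v))) =
      E v.1 v.2 v.2 := by
    intro v
    rw [f.apply_symm_apply]
    exact if_pos rfl
  simp only [e1] at hfin
  exact hfin

end Pool.Agent.H49.CQ
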